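import Mathlib

namespace Pool.Agent.Results.MP_6fdec2_co.Q1False
open Finset Polynomial

/-- `Δ` is the face set of a simplicial complex on `Fin l`. -/
def IsCx {l : ℕ} (Δ : Set (Finset (Fin l))) : Prop :=
  (∀ s ∈ Δ, ∀ t ⊆ s, t ∈ Δ) ∧ ∀ i, {i} ∈ Δ

/-- The generalized `q`-deformation of `Δ` over the field `F`, as a set of hyperplanes. -/
def arr {l : ℕ} (Δ : Set (Finset (Fin l))) (F : Type) [Field F] :
    Set (Submodule F (Fin l → F)) :=
  {H | ∃ s ∈ Δ, s.Nonempty ∧ ∃ a : Fin l → F, (∀ i ∈ s, a i ≠ 0) ∧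
    H = LinearMap.ker (∑ i ∈ s, a i • LinearMap.proj i : (Fin l → F) →ₗ[F] F)}

/-- The characteristic polynomial of an arrangement over a finite field, evaluated at `t`. -/
noncomputable def chi {l : ℕ} {F : Type} [Field F] [Fintype F]
    (A : Set (Submodule F (Fin l → F))) (t : ℝ) : ℝ :=
  ∑ I ∈ (Set.toFinite A).toFinset.powerset,
    (-1) ^ #I * t ^ Module.finrank F (I.inf id : Submodule F (Fin l → F))

variable {F : Type} [Field F]

def Ind (T : Finset (Fin 7)) (y : Fin 3 → Fin 7 → F) : Prop :=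
  ∀ a : Fin 7 → F, (∀ m, ∑ i ∈ T, a i * y m i = 0) → ∀ i ∈ T, a i = 0

def lines : Finset (Finset (Fin 7)) :=
  {{0, 1, 4}, {2, 3, 4}, {0, 2, 5}, {1, 3, 5}, {0, 3, 6}, {1, 2, 6}, {4, 5, 6}}

def base : Finset (Finset (Fin 7)) := powersetCard 3 univ \ lines

def cx (S : Finset (Finset (Fin 7))) : Set (Finset (Fin 7)) := {s | ∃ T ∈ base ∪ S, s ⊆ T}

lemma Ind.mono {S T} {y : Fin 3 → Fin 7 → F} (h : Ind T y) (q : S ⊆ T) : Ind S y := by
  intro a ha i hi
  simpa [hi] using h (fun i => if i ∈ S then a i else 0)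
    (fun m => by simpa [inter_eq_right.2 q] using ha m) i (q hi)

open Classical in
lemma count [Fintype F] (S) : chi (arr (cx S) F) ((Fintype.card F : ℝ) ^ 3) =
    #{y : Fin 3 → Fin 7 → F | ∀ T ∈ base ∪ S, Ind T y} := by
  have := inclusion_exclusion_card_inf_compl (Set.toFinite (arr (cx S) F)).toFinset
    fun H => ({y | ∀ m, y m ∈ H} : Finset (Fin 3 → Fin 7 → F))
  have e : ∀ I : Finset (Submodule F (Fin 7 → F)),
      #(I.inf fun H => ({y | ∀ m, y m ∈ H} : Finset (Fin 3 → Fin 7 → F))) =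
      (Fintype.card F ^ 3) ^ Module.finrank F (I.inf id : Submodule F (Fin 7 → F)) := fun I => by
    rw [← pow_mul, mul_comm, pow_mul, ← Module.card_eq_pow_finrank, ← Fintype.card_coe,
      ← Fintype.card_fin 3, ← Fintype.card_fun, Fintype.card_fin]
    refine Fintype.card_congr ((Equiv.subtypeEquivRight fun y => ?_).trans Equiv.subtypePiEquivPi)
    simp only [mem_inf, mem_filter, mem_univ, true_and, Submodule.mem_finsetInf, id]
    tauto
  simp only [e] at this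
  rw [chi]
  refine .trans (by exact_mod_cast this.symm) (congrArg (fun s : Finset _ => (#s : ℝ)) ?_)
  ext y
  simp only [mem_inf, Set.Finite.mem_toFinset, mem_compl, mem_filter, mem_univ, true_and]
  constructor
  · intro h T hT a ha i hi
    by_contra q
    refine h _ ⟨{i ∈ T | a i ≠ 0}, ⟨T, hT, filter_subset _ _⟩, ⟨i, by simp [hi, q]⟩, a,
      by simp, rfl⟩ fun m => ?_
    simpa [sum_filter_of_ne (s := T) (p := fun i => a i ≠ 0) (f := fun i => a i * y m i)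
      fun i _ h => left_ne_zero_of_mul h] using ha m
  · rintro h _ ⟨s, ⟨T, hT, hs⟩, ⟨i, hi⟩, a, ha, rfl⟩ q
    exact ha i hi ((h T hT).mono hs a (fun m => by simpa using q m) i hi)

lemma fano (y : Fin 3 → Fin 7 → F) (h : ∀ T ∈ base, Ind T y) (h' : ∀ T ∈ lines, ¬ Ind T y) :
    (2 : F) = 0 := by
  have k : ∀ T ∈ lines, ∃ a : Fin 7 → F, (∀ m, ∑ i ∈ T, a i * y m i = 0) ∧ ∀ i ∈ T, a i ≠ 0 := by
    intro T hT
    have := h' T hT
    simp only [Ind, not_forall] at this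
    obtain ⟨a, ha, j, hj, n⟩ := this
    refine ⟨a, ha, fun i hi q => ?_⟩
    obtain ⟨U, hU, r⟩ := (by decide +kernel : ∀ T ∈ lines, ∀ i ∈ T, ∃ U ∈ base, T.erase i ⊆ U)
      T hT i hi
    exact n ((h U hU).mono r a (fun m => by rw [sum_erase _ (by simp [q]), ha]) j
      (mem_erase.2 ⟨fun e => n (e ▸ q), hj⟩))
  have I : ∀ p r s : F, (∀ m, p * y m 0 + r * y m 1 + s * y m 2 = 0) → p = 0 ∧ r = 0 ∧ s = 0 :=
    fun p r s q => by
      simpa using h {0, 1, 2} (by decide) ![p, r, s, 0, 0, 0, 0] (by simpa [add_assoc] using q)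
  simp only [lines, mem_insert, mem_singleton, forall_eq_or_imp, forall_eq] at k
  obtain ⟨⟨a, A, a0, a1, a4⟩, ⟨b, B, b2, b3, b4⟩, ⟨c, C, c0, c2, c5⟩, ⟨d, D, d1, d3, d5⟩,
    ⟨e, E, e0, e3, e6⟩, ⟨g, G, g1, g2, g6⟩, ⟨h, H, h4, h5, h6⟩⟩ := k
  simp (disch := decide) only [sum_insert, sum_singleton] at A B C D E G H
  obtain ⟨q1, -, q2⟩ := I (b 4 * a 0 * c 5 * d 3 - a 4 * b 3 * d 5 * c 0)
    (b 4 * a 1 * c 5 * d 3 + a 4 * b 3 * c 5 * d 1) (-a 4 * (b 2 * c 5 * d 3 + b 3 * d 5 * c 2))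
    fun m => by
      linear_combination c 5 * d 3 * (b 4 * A m - a 4 * B m) - a 4 * b 3 * (d 5 * C m - c 5 * D m)
  obtain ⟨-, q3, q4⟩ := I (b 4 * a 0 * g 6 * e 3 + a 4 * b 3 * g 6 * e 0)
    (b 4 * a 1 * g 6 * e 3 - a 4 * b 3 * e 6 * g 1) (-a 4 * (b 2 * g 6 * e 3 + b 3 * e 6 * g 2))
    fun m => by
      linear_combination g 6 * e 3 * (b 4 * A m - a 4 * B m) + a 4 * b 3 * (g 6 * E m - e 6 * G m)
  obtain ⟨q5, q6, q7⟩ := I (g 6 * (h 4 * c 5 * a 0 + h 5 * a 4 * c 0))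
    (c 5 * (h 4 * g 6 * a 1 + h 6 * a 4 * g 1)) (a 4 * (h 5 * g 6 * c 2 + h 6 * c 5 * g 2))
    fun m => by
      linear_combination h 4 * c 5 * g 6 * A m + h 5 * a 4 * g 6 * C m + h 6 * a 4 * c 5 * G m -
        a 4 * c 5 * g 6 * H m
  grind

def y0 : Fin 3 → Fin 7 → ZMod 2 :=
  ![![1, 0, 0, 1, 1, 1, 0], ![0, 1, 0, 1, 1, 0, 1], ![0, 0, 1, 1, 0, 1, 1]]

instance (T) : Decidable (Ind T y0) := by unfold Ind; infer_instance

lemma wit : (∀ T ∈ lines, ¬ Ind T y0) ∧ ∀ T ∈ base, Ind T y0 := by decide +kernel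

theorem result : ∃ Δ : Set (Finset (Fin 7)), IsCx Δ ∧ ¬ ∃ P : ℝ[X][X],
    ∀ (F : Type) [Field F] [Fintype F] (t : ℝ),
      chi (arr Δ F) t = P.evalEval (Fintype.card F : ℝ) t := by
  classical
  by_contra! H
  choose P hP using fun S => H (cx S) ⟨fun s ⟨T, h, q⟩ t r => ⟨T, h, r.trans q⟩, fun i =>
    ((by decide +kernel : ∀ i : Fin 7, ∃ T ∈ base, {i} ⊆ T) i).imp
      fun T h => ⟨mem_union_left _ h.1, h.2⟩⟩
  let R : ℝ[X] := ∑ S ∈ lines.powerset, (-1) ^ #S * (P S).eval (X ^ 3)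
  have key : ∀ (F : Type) [Field F] [Fintype F], R.eval (Fintype.card F : ℝ) =
      #{y : Fin 3 → Fin 7 → F | (∀ T ∈ lines, ¬ Ind T y) ∧ ∀ T ∈ base, Ind T y} := by
    intro F _ _
    have := inclusion_exclusion_sum_inf_compl lines
      (fun T => ({y | Ind T y} : Finset (Fin 3 → Fin 7 → F)))
      fun y => if ∀ T ∈ base, Ind T y then (1 : ℝ) else 0
    simp only [sum_boole] at this
    refine .trans ?_ (this.symm.trans (congrArg (fun s : Finset _ => (#s : ℝ)) (by ext; simp [mem_inf])))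
    simp only [R, eval_finsetSum]
    refine sum_congr rfl fun S _ => ?_
    have e : ∀ (q : ℝ) (Q : ℝ[X][X]), (Q.eval (X ^ 3)).eval q = Q.evalEval q (q ^ 3) := fun q Q => by
      induction Q using Polynomial.induction_on' <;> simp [evalEval, *]
    rw [eval_mul, e, eval_pow, ← hP, count]
    simp only [eval_neg, eval_one, zsmul_eq_mul, Int.cast_pow, Int.cast_neg, Int.cast_one]
    congr 3
    ext y
    simp [or_imp, forall_and, and_comm, mem_inf]
  have : R = 0 := eq_zero_of_infinite_isRoot _ <|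
    ((Nat.infinite_setOfPred_prime.sdiff (Set.finite_singleton 2)).image
      Nat.cast_injective.injOn).mono <| by
    rintro _ ⟨p, ⟨hp, h2⟩, rfl⟩
    have : Fact p.Prime := ⟨hp⟩
    have k := key (ZMod p)
    rw [ZMod.card, filter_eq_empty_iff.2 fun y _ h => h2 ?_] at k
    · simpa using k
    · have : ((2 : ℕ) : ZMod p) = 0 := by simpa using fano y h.2 h.1
      exact (Nat.prime_dvd_prime_iff_eq hp Nat.prime_two).1 ((ZMod.natCast_eq_zero_iff _ _).1 this)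
  have k := key (ZMod 2)
  rw [this, eval_zero, eq_comm, Nat.cast_eq_zero] at k
  refine card_ne_zero.2 ⟨y0, ?_⟩ k
  simp only [mem_filter, mem_univ, true_and]
  exact wit

end Pool.Agent.Results.MP_6fdec2_co.Q1False
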